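import Mathlib
import Pool.Agent.TH591.Lie.Final
import Pool.Agent.Y368.Lie.Matrix

set_option autoImplicit false

/-!
# MP_5e7226_co: bodies, symmetric or not, with a large compact Lie group of symmetries

Let `K` be a convex body in a Euclidean space `E` of dimension `d ≥ 2` and `o` an interior point. `K`
need not be symmetric about `o`: `K - o ⊆ -a (K - o)` for some `a` (every pair `(K, o)` has this
property for large `a`, and the symmetric bodies have it for `a = 1`).

1. Rotations. Suppose that `K` is invariant, about `o`, under an orthogonal representation of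
   `SO(n)` (`n ≥ 3`) on `E` without nonzero fixed vectors, whose matrix coefficients are polynomials
   of degree at most `k` in the entries of the rotation. Put `s = (n - 2) / (960 k² (1 + a)²)`. Then
   the faces of `K` can be separated from `o` by `1 + 13 d log(2d²+2d+1) 2^d e^(-s)` hyperplanes,
   and by less than `2^d` if `s ≥ 5 + 2 log d`. So the conjecture is true for all these bodies in all
   dimensions `d ≤ exp(s/2 - 5/2)`: the dimension may be exponential in `n`.
2. Compact Lie algebras. The same is true, with `s = γ / (1920 κ² (1 + a)²)`, if `K` is invariant,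
   about `o`, under the one-parameter groups generated by a compact semisimple Lie algebra of
   skew-symmetric operators of `E` without a common kernel. Here the Lie algebra is given by an
   orthonormal basis `X_i`, with respect to some invariant inner product, such that the Killing form
   is at least `γ` (in absolute value), and `κ` is the largest norm of an operator `∑ a_i X_i` with
   `∑ a_i² = 1`.
3. Bodies of matrices. If `K` is a convex body in the space of real `n × m` matrices (`n ≥ 3`) which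
   is invariant, about `o`, under the left multiplications by the rotations `U ∈ SO(n)`, then this
   holds with `s = (n - 4) / 3840`, and nothing has to be assumed about symmetry.

For `a = 1` the statements (1) and (2), with other constants, are the theorem
`CompactLieSymmetries` of the starting files. New are the bodies which are not symmetric about `o`
and part 3. The proof covers the polar body `P`, which has the same symmetries and the same
asymmetry. (a) By Bernstein's inequality for trigonometric polynomials, applied to the odd part of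
`⟪y, exp(tX) x⟫ ∈ [-a, 1]` along the one-parameter groups, the functionals `y` with `⟪y, ·⟫ ≤ 1` on
`P` satisfy `∑ ⟪y, X_i x⟫² ≤ κ² (1+a)²/4` on `P`. (b) With a maximum principle and (c) integration
by parts along the flows (as in the symmetric case), `⟪y, ·⟫` is subgaussian on `P` with parameter
`κ² (1+a)² / γ`, and (d) the covering theorem for bodies with thin supporting slabs, in the version
for bodies which need not be symmetric (`MP_eba1ef_gt.AsymmetricThinSlabs`), applies to `P`. For (3),
the mean of the `n` diagonal matrices with one entry `1` and the others `-1` (for odd `n`; `-1` itself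
is a rotation for even `n`) is `-(n-2)/n`, so `P ⊆ -n/(n-2) P`.
-/

namespace Pool.Agent.Results.MP_5e7226_co.AsymmetricLieSymmetries

open scoped InnerProductSpace
open Module

/-- `K` and `o` are separated by `H`: every face of `K` (the set of the points of `K` at which a
functional `⟪u, ·⟫`, `u ≠ 0`, is maximal on `K`) is strictly separated from `o` by one of the
hyperplanes `{x | ⟪h.1, x⟫ = h.2}` with `h ∈ H`. -/
def SeparatesFaces {E : Type*} [NormedAddCommGroup E] [InnerProductSpace ℝ E] (K : Set E) (o : E)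
    (H : Finset (E × ℝ)) : Prop :=
  (∀ h ∈ H, h.1 ≠ 0) ∧
    ∀ u x₀ : E, u ≠ 0 → x₀ ∈ K → (∀ y ∈ K, ⟪u, y⟫_ℝ ≤ ⟪u, x₀⟫_ℝ) →
      ∃ h ∈ H, ⟪h.1, o⟫_ℝ < h.2 ∧ ∀ x ∈ K, ⟪u, x⟫_ℝ = ⟪u, x₀⟫_ℝ → h.2 < ⟪h.1, x⟫_ℝ

/-- The bounds of the theorem, in terms of the parameter `s`: at most
`1 + 13 d log(2d²+2d+1) 2^d e^(-s)` hyperplanes suffice, and less than `2^d` if
`s ≥ 5 + 2 log d`, where `d` is the dimension. -/
def FewHyperplanes {E : Type*} [NormedAddCommGroup E] [InnerProductSpace ℝ E] (K : Set E) (o : E)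
    (s : ℝ) : Prop :=
  ∃ H : Finset (E × ℝ), SeparatesFaces K o H ∧
    (H.card : ℝ) ≤ 1 + 13 * finrank ℝ E * Real.log (2 * finrank ℝ E ^ 2 + 2 * finrank ℝ E + 1)
      * 2 ^ finrank ℝ E * Real.exp (-s) ∧
    (5 + 2 * Real.log (finrank ℝ E) ≤ s → H.card < 2 ^ finrank ℝ E)

/-- `K` is a convex body with interior point `o` and `K - o ⊆ -a (K - o)`. -/
def IsBody {E : Type*} [NormedAddCommGroup E] [InnerProductSpace ℝ E] (K : Set E) (o : E)
    (a : ℝ) : Prop :=
  Convex ℝ K ∧ IsCompact K ∧ o ∈ interior K ∧ 0 < a ∧ ∀ x ∈ K, o - a⁻¹ • (x - o) ∈ K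

/-- `ρ` is a representation of `SO(n)` without nonzero fixed vectors the matrix coefficients
`⟪y, ρ g x⟫` of which are polynomials of degree at most `k` in the entries of `g`. -/
def IsPolynomialRep {E : Type*} [NormedAddCommGroup E] [InnerProductSpace ℝ E] (n k : ℕ)
    (ρ : Matrix.specialOrthogonalGroup (Fin n) ℝ →* (E ≃ₗᵢ[ℝ] E)) : Prop :=
  (∀ x y : E, ∃ P : MvPolynomial (Fin n × Fin n) ℝ, P.totalDegree ≤ k ∧
    ∀ g : Matrix.specialOrthogonalGroup (Fin n) ℝ, ⟪y, ρ g x⟫_ℝ
      = MvPolynomial.eval (fun p => (g : Matrix (Fin n) (Fin n) ℝ) p.1 p.2) P) ∧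
  ∀ x : E, (∀ g, ρ g x = x) → x = 0

/-- The operators `X i` are an orthonormal basis (with respect to an invariant inner product; the
structure constants are `c`) of a Lie algebra of skew-symmetric operators without a common kernel,
the Killing form of which is at least `γ` in absolute value; `κ` bounds the norms of the operators
`∑ b_i X_i` with `∑ b_i² ≤ 1`. -/
def IsSemisimple {E : Type*} [NormedAddCommGroup E] [InnerProductSpace ℝ E] {ι : Type} [Fintype ι]
    (X : ι → E →L[ℝ] E) (c : ι → ι → ι → ℝ) (γ κ : ℝ) : Prop :=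
  (∀ i x y, ⟪X i x, y⟫_ℝ = -⟪x, X i y⟫_ℝ) ∧
  (∀ i j x, X i (X j x) - X j (X i x) = ∑ k, c i j k • X k x) ∧
  (∀ i j k, c i j k = -c k j i) ∧
  (∀ v : ι → ℝ, γ * ∑ k, v k ^ 2 ≤ ∑ i, ∑ j, (∑ k, c i j k * v k) ^ 2) ∧
  (∀ x, (∀ i, X i x = 0) → x = 0) ∧
  (∀ b : ι → ℝ, ∑ i, b i ^ 2 ≤ 1 → ∀ x, ‖∑ i, b i • X i x‖ ≤ κ * ‖x‖)

/-- The product `U A` of a matrix `U ∈ SO(n)` and an `n × m` matrix `A`. -/
noncomputable def rotate {n m : ℕ} (U : Matrix.specialOrthogonalGroup (Fin n) ℝ)
    (A : EuclideanSpace ℝ (Fin n × Fin m)) : EuclideanSpace ℝ (Fin n × Fin m) :=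
  WithLp.toLp 2 fun p => ∑ j, (U : Matrix (Fin n) (Fin n) ℝ) p.1 j * A (j, p.2)

/-- From coverings of the polar body to hyperplanes. -/
theorem few_of_cover {E : Type*} [NormedAddCommGroup E] [InnerProductSpace ℝ E]
    [FiniteDimensional ℝ E] (K : Set E) (o : E) (ho : o ∈ interior K) (hd : 2 ≤ finrank ℝ E) (s : ℝ)
    (h : ∃ T : Finset E, TH591.Lie.polarAt K o
        ⊆ ⋃ t ∈ T, (fun x => t + x) '' interior (TH591.Lie.polarAt K o) ∧
      (T.card : ℝ) ≤ 1 + 13 * finrank ℝ E * Real.log (2 * finrank ℝ E ^ 2 + 2 * finrank ℝ E + 1)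
        * 2 ^ finrank ℝ E * Real.exp (-s)) : FewHyperplanes K o s := by
  obtain ⟨T, hT1, hT2⟩ := h
  obtain ⟨H, hH, hsep⟩ := TH591.Lie.sep_of_cover K o ho T hT1
  have hH' : (H.card : ℝ) ≤ T.card := by exact_mod_cast hH
  exact ⟨H, hsep, hH'.trans hT2, fun hs => Y368.Lie.strict _ hd _ _ (hH'.trans hT2) hs⟩

theorem result :
    -- bodies in a Euclidean space, possibly not symmetric
    (∀ (E : Type) [NormedAddCommGroup E] [InnerProductSpace ℝ E] [FiniteDimensional ℝ E]
      (K : Set E) (o : E) (a : ℝ), 2 ≤ finrank ℝ E → IsBody K o a →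
      -- 1. invariance under a representation of `SO(n)` of degree at most `k`
      (∀ n k : ℕ, 3 ≤ n → 1 ≤ k → ∀ ρ : Matrix.specialOrthogonalGroup (Fin n) ℝ →* (E ≃ₗᵢ[ℝ] E),
        IsPolynomialRep n k ρ → (∀ g, ∀ x ∈ K, o + ρ g (x - o) ∈ K) →
        FewHyperplanes K o ((n - 2) / (960 * k ^ 2 * (1 + a) ^ 2))) ∧
      -- 2. invariance under a compact semisimple Lie algebra of operators
      (∀ (ι : Type) [Fintype ι] (X : ι → E →L[ℝ] E) (c : ι → ι → ι → ℝ) (γ κ : ℝ), 0 < γ → 0 < κ →
        IsSemisimple X c γ κ →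
        (∀ b : ι → ℝ, ∀ x ∈ K, o + NormedSpace.exp (∑ i, b i • X i) (x - o) ∈ K) →
        FewHyperplanes K o (γ / (1920 * κ ^ 2 * (1 + a) ^ 2)))) ∧
    -- 3. convex bodies of matrices invariant under the rotations from the left
    (∀ n m : ℕ, 3 ≤ n → 1 ≤ m → ∀ (K : Set (EuclideanSpace ℝ (Fin n × Fin m)))
      (o : EuclideanSpace ℝ (Fin n × Fin m)), Convex ℝ K → IsCompact K → o ∈ interior K →
      (∀ U : Matrix.specialOrthogonalGroup (Fin n) ℝ, ∀ A ∈ K, o + rotate U (A - o) ∈ K) →
      FewHyperplanes K o (((n : ℝ) - 4) / 3840)) := by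
  refine ⟨?_, ?_⟩
  · rintro E _ _ _ K o a hd ⟨hK, hKc, ho, ha, hKa⟩
    let _ : MeasurableSpace E := borel E
    have _ : BorelSpace E := ⟨rfl⟩
    have hPa : ∀ v ∈ TH591.Lie.polarAt K o, -(a⁻¹ • v) ∈ TH591.Lie.polarAt K o := by
      intro v hv y hy
      have h1 := hv _ (hKa y hy)
      rw [sub_sub_cancel_left, inner_neg_right, real_inner_smul_right] at h1
      rw [inner_neg_left, real_inner_smul_left]
      exact h1
    refine ⟨fun n k hn hk ρ hρ hinv => ?_, fun ι _ X c γ κ hγ hκ hX hinv => ?_⟩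
    · refine few_of_cover K o ho hd _ ?_
      refine Y368.Lie.cover_so' hn k hk ρ hρ.1 hρ.2 _ hd (TH591.Lie.polarAt_convex K o)
        (TH591.Lie.polarAt_compact K o ho) (TH591.Lie.polarAt_interior K hKc o ho) a ha hPa ?_
      intro g v hv y hy
      have h1 := hinv g⁻¹ y hy
      have h2 := hv _ h1
      have e1 : ρ g (ρ g⁻¹ (y - o)) = y - o := by
        have : ρ g (ρ g⁻¹ (y - o)) = (ρ g * ρ g⁻¹) (y - o) := rfl
        rw [this, ← map_mul, mul_inv_cancel, map_one]
        rfl
      rw [add_sub_cancel_left, ← (ρ g).inner_map_map, e1] at h2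
      exact h2
    · obtain ⟨hX, hc, hanti, hkill, hfix, hn⟩ := hX
      refine few_of_cover K o ho hd _ ?_
      refine Y368.Lie.cover_casimir' X hX (TH591.Lie.casimir_comm X c hc hanti) γ
        hγ (TH591.Lie.kill_bound X c hc γ hkill) hfix κ hκ hn _ hd (TH591.Lie.polarAt_convex K o)
        (TH591.Lie.polarAt_compact K o ho) (TH591.Lie.polarAt_interior K hKc o ho) a ha hPa ?_
      intro b v hv y hy
      set S := ∑ i, b i • X i with hS
      have hSk : ∀ x y, ⟪S x, y⟫_ℝ = -⟪x, S y⟫_ℝ := TH591.Lie.comb_skew' Finset.univ X hX b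
      have h1 := hinv (-b) y hy
      have e1 : ∑ i, (-b) i • X i = (-1 : ℝ) • S := by
        rw [hS, Finset.smul_sum]
        refine Finset.sum_congr rfl fun i _ => ?_
        rw [Pi.neg_apply, neg_smul, neg_smul, one_smul]
      rw [e1] at h1
      have h2 := hv _ h1
      rw [add_sub_cancel_left, ← TH591.Lie.flow_inner S hSk 1, TH591.Lie.flow_neg', one_smul] at h2
      exact h2
  · intro n m hn hm K o hK hKc ho hinv
    have hd : 2 ≤ finrank ℝ (EuclideanSpace ℝ (Fin n × Fin m)) := by
      have : finrank ℝ (EuclideanSpace ℝ (Fin n × Fin m)) = n * m := by simp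
      rw [this]
      nlinarith
    refine few_of_cover K o ho hd _ ?_
    refine Y368.Lie.cover_matrix hn hm _ (TH591.Lie.polarAt_convex K o)
      (TH591.Lie.polarAt_compact K o ho) (TH591.Lie.polarAt_interior K hKc o ho) ?_
    intro U v hv y hy
    have h1 := hinv U⁻¹ y hy
    have h2 := hv _ h1
    rw [add_sub_cancel_left] at h2
    have e1 : ⟪Y368.Lie.lmul (U : Matrix (Fin n) (Fin n) ℝ) v, y - o⟫_ℝ
        = ⟪v, rotate U⁻¹ (y - o)⟫_ℝ := by
      have h3 := (Y368.Lie.lrep n m U).inner_map_map v (Y368.Lie.lrep n m U⁻¹ (y - o))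
      have h4 : Y368.Lie.lrep n m U (Y368.Lie.lrep n m U⁻¹ (y - o)) = y - o := by
        have : Y368.Lie.lrep n m U (Y368.Lie.lrep n m U⁻¹ (y - o))
            = (Y368.Lie.lrep n m U * Y368.Lie.lrep n m U⁻¹) (y - o) := rfl
        rw [this, ← map_mul, mul_inv_cancel, map_one]
        rfl
      rw [h4] at h3
      exact h3
    rw [e1]
    exact h2

end Pool.Agent.Results.MP_5e7226_co.AsymmetricLieSymmetries
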