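import Mathlib
import Pool.Agent.H985.Sep
import Pool.Agent.Y512.S4.Main34
import Pool.Agent.Y512.S4.Euclid

set_option autoImplicit false

/-!
# MP_5e7226_co: thirty-four hyperplanes suffice in `𝔼⁴` for centrally symmetric bodies

For every convex body `K` in `𝔼⁴` and every interior point `o` such that the polar body of `K` with
respect to `o` has a centre of symmetry (for example `o` is a centre of symmetry of `K`, or `K` is an
ellipsoid and `o` any interior point) there are at most 34 hyperplanes such that every face of `K` is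
strictly separated from `o` by one of them: `s(K, o) ≤ 34`.

The polar body is covered by 34 translates of its interior (theorem
`MP_eba1ef_gt.SymmetricFourSpace` of helper512), and every translate gives a hyperplane
(`H985.Sep`).
-/

namespace Pool.Agent.Results.MP_5e7226_co.FourSpaceSymmetric

open scoped InnerProductSpace

/-- The polar form: `K` compact, `o` an interior point, and the polar body
`{v | ⟪v, y - o⟫ ≤ 1 for all y ∈ K}` has the centre of symmetry `c`. -/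
theorem general (K : Set (EuclideanSpace ℝ (Fin 4))) (hKc : IsCompact K)
    (o : EuclideanSpace ℝ (Fin 4)) (ho : o ∈ interior K) (c : EuclideanSpace ℝ (Fin 4))
    (hc : ∀ v : EuclideanSpace ℝ (Fin 4), (∀ y ∈ K, ⟪v, y - o⟫_ℝ ≤ 1) →
      ∀ y ∈ K, ⟪(2 : ℝ) • c - v, y - o⟫_ℝ ≤ 1) :
    ∃ H : Finset (EuclideanSpace ℝ (Fin 4) × ℝ), H.card ≤ 34 ∧ (∀ h ∈ H, h.1 ≠ 0) ∧
      ∀ u x₀ : EuclideanSpace ℝ (Fin 4), u ≠ 0 → x₀ ∈ K → (∀ y ∈ K, ⟪u, y⟫_ℝ ≤ ⟪u, x₀⟫_ℝ) →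
        ∃ h ∈ H, ⟪h.1, o⟫_ℝ < h.2 ∧ ∀ x ∈ K, ⟪u, x⟫_ℝ = ⟪u, x₀⟫_ℝ → h.2 < ⟪h.1, x⟫_ℝ := by
  obtain ⟨T, hT, hcov⟩ := Pool.Agent.Y512.covN_centre
    (fun _ h1 h2 h3 h4 => Pool.Agent.Y512.S4.covN34 h1 h2 h3 h4)
    (H985.Sep.polar K o) (H985.Sep.convex_polar K o)
    (H985.Sep.isCompact_polar ho) (H985.Sep.interior_polar_nonempty hKc ho) c hc
  obtain ⟨H, h1, h2, h3⟩ := H985.Sep.separate ho T hcov
  exact ⟨H, h1.trans hT, h2, h3⟩

/-- **Main theorem.** (1) For every convex body `K` in `𝔼⁴` which is symmetric about its interior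
point `o` there is a set `H` of at most 34 hyperplanes `{x | ⟪h.1, x⟫ = h.2}` such that every face of
`K` (the set of the points of `K` at which a functional `⟪u, ·⟫`, `u ≠ 0`, is maximal on `K`) is
strictly separated from `o` by one of them. (2) The same for every convex body `K` and every interior
point `o` such that the polar body of `K` with respect to `o` has some centre of symmetry `c`. -/
theorem result :
    (∀ K : Set (EuclideanSpace ℝ (Fin 4)), IsCompact K →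
      ∀ o : EuclideanSpace ℝ (Fin 4), o ∈ interior K → (∀ x ∈ K, (2 : ℝ) • o - x ∈ K) →
      ∃ H : Finset (EuclideanSpace ℝ (Fin 4) × ℝ), H.card ≤ 34 ∧ (∀ h ∈ H, h.1 ≠ 0) ∧
        ∀ u x₀ : EuclideanSpace ℝ (Fin 4), u ≠ 0 → x₀ ∈ K → (∀ y ∈ K, ⟪u, y⟫_ℝ ≤ ⟪u, x₀⟫_ℝ) →
          ∃ h ∈ H, ⟪h.1, o⟫_ℝ < h.2 ∧ ∀ x ∈ K, ⟪u, x⟫_ℝ = ⟪u, x₀⟫_ℝ → h.2 < ⟪h.1, x⟫_ℝ) ∧
    ∀ K : Set (EuclideanSpace ℝ (Fin 4)), IsCompact K →
      ∀ o : EuclideanSpace ℝ (Fin 4), o ∈ interior K → ∀ c : EuclideanSpace ℝ (Fin 4),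
      (∀ v : EuclideanSpace ℝ (Fin 4), (∀ y ∈ K, ⟪v, y - o⟫_ℝ ≤ 1) →
        ∀ y ∈ K, ⟪(2 : ℝ) • c - v, y - o⟫_ℝ ≤ 1) →
      ∃ H : Finset (EuclideanSpace ℝ (Fin 4) × ℝ), H.card ≤ 34 ∧ (∀ h ∈ H, h.1 ≠ 0) ∧
        ∀ u x₀ : EuclideanSpace ℝ (Fin 4), u ≠ 0 → x₀ ∈ K → (∀ y ∈ K, ⟪u, y⟫_ℝ ≤ ⟪u, x₀⟫_ℝ) →
          ∃ h ∈ H, ⟪h.1, o⟫_ℝ < h.2 ∧ ∀ x ∈ K, ⟪u, x⟫_ℝ = ⟪u, x₀⟫_ℝ → h.2 < ⟪h.1, x⟫_ℝ := by
  refine ⟨fun K hKc o ho hs => general K hKc o ho 0 fun v hv y hy => ?_, general⟩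
  have h := hv _ (hs y hy)
  rw [smul_zero, zero_sub, inner_neg_left, ← inner_neg_right]
  have e : (2 : ℝ) • o - y - o = -(y - o) := by rw [two_smul]; abel
  rw [e] at h
  exact h

end Pool.Agent.Results.MP_5e7226_co.FourSpaceSymmetric
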