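import Mathlib
import Pool.Agent.Y368.Faces
import Pool.Agent.Results.MP_eba1ef_gt.SmallNormalCones

set_option autoImplicit false

/-!
# MP_5e7226_co: convex bodies with faces of small dimension

Let `K` be a convex body in `ℝ^d` and `o` ANY interior point. A few exceptional outer normals are
allowed in the following: they are given by a finite set `F` of vectors `v`, normalized such that
`max {⟪v, y - o⟫ : y ∈ K} = 1`. Suppose that all faces of `K` whose normal vector is not in `F` have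
dimension less than `k`. (Only normal vectors `v` which are extreme points of the polar body have to
be considered.) It is proved:

1. If `d ≥ 1024`, `k ≤ d / 5` and `|F| ≤ (1 - 1/d) 2^d`, then fewer than `2^d` hyperplanes suffice to
   separate every face of `K` strictly from `o`. In particular this holds for every convex body
   without exceptional faces, all of whose faces have dimension less than `d / 5`, and for EVERY
   interior point `o`.
2. If `K` is centrally symmetric about `o`, it suffices that `k ≤ d/2 - (2 d log d)^(1/2)` and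
   `|F| ≤ (1 - 4/d) 2^d`.
3. Explicit bounds for all `k`: `|F| + 1 + 4 d (d+1) log (20 d^6 + 1) ((2 - τ) / τ)^k (1 - τ)^(-d)`
   hyperplanes suffice for every `0 < τ < 1`, and `|F| + 1 + 3 d (d+1)^2 log (10 d^5 + 1) (d choose k)`
   hyperplanes if `K` is symmetric about `o` and `k < d/2`.

For strictly convex bodies `k = 1`, and `d + 1` hyperplanes suffice (known); for polytopes `k = d`.

The proof: if the face with the normal vector `v` has dimension less than `k` then the normal cone of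
the polar body at the point `v` has dimension at most `k`: a functional which is maximal at `v` on the
polar body is, by the bipolar theorem, a nonnegative multiple of `y - o` for a point `y` of the face.
Hence the polar body is covered by few translates of its interior, by the theorem
`MP_eba1ef_gt.SmallNormalCones` of the starting files, and every translate gives a hyperplane.
-/

open scoped RealInnerProductSpace
open Module

namespace Pool.Agent.Results.MP_5e7226_co.LowDimensionalFaces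

/-- The Euclidean space `ℝ^d`. -/
abbrev Eu (d : ℕ) : Type := EuclideanSpace ℝ (Fin d)

/-- `K` is a convex body and `o` an interior point. -/
def IsPair {d : ℕ} (K : Set (Eu d)) (o : Eu d) : Prop :=
  Convex ℝ K ∧ IsCompact K ∧ o ∈ interior K

/-- The polar body of `K` with respect to `o`. -/
def polar {d : ℕ} (K : Set (Eu d)) (o : Eu d) : Set (Eu d) :=
  {v | ∀ y ∈ K, ⟪v, y - o⟫ ≤ 1}

/-- All faces `{y ∈ K | ⟪v, y - o⟫ = 1}` of `K`, where `v ∉ F` is an extreme point of the polar body,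
have dimension less than `k`. -/
def SmallFaces {d : ℕ} (K : Set (Eu d)) (o : Eu d) (k : ℕ) (F : Finset (Eu d)) : Prop :=
  ∀ v ∈ Set.extremePoints ℝ (polar K o), v ∉ F →
    finrank ℝ (vectorSpan ℝ {y ∈ K | ⟪v, y - o⟫ = 1}) < k

/-- The hyperplanes `{x | ⟪h.1, x⟫ = h.2}`, `h ∈ H`, separate the faces of `K` from `o`: each face of
`K`, that is the set of the points of `K` at which a functional `⟪u, ·⟫`, `u ≠ 0`, is maximal on `K`,
is strictly separated from `o` by one of them. -/
def Separates {d : ℕ} (H : Finset (Eu d × ℝ)) (K : Set (Eu d)) (o : Eu d) : Prop :=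
  (∀ h ∈ H, h.1 ≠ 0) ∧
    ∀ u x₀ : Eu d, u ≠ 0 → x₀ ∈ K → (∀ y ∈ K, ⟪u, y⟫ ≤ ⟪u, x₀⟫) →
      ∃ h ∈ H, ⟪h.1, o⟫ < h.2 ∧ ∀ x ∈ K, ⟪u, x⟫ = ⟪u, x₀⟫ → h.2 < ⟪h.1, x⟫

/-- **Main theorem.** -/
theorem result :
    -- (1) all bodies and all interior points
    (∀ (d k : ℕ) (K : Set (Eu d)) (o : Eu d) (F : Finset (Eu d)), 1024 ≤ d → 5 * k ≤ d →
      IsPair K o → SmallFaces K o k F → (F.card : ℝ) ≤ (1 - 1 / d) * 2 ^ d →
      ∃ H, Separates H K o ∧ H.card < 2 ^ d) ∧
    -- (2) bodies which are centrally symmetric about `o`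
    (∀ (d k : ℕ) (K : Set (Eu d)) (o : Eu d) (F : Finset (Eu d)), 2 ≤ d → 2 * k ≤ d →
      8 * (d * Real.log d) ≤ (d - 2 * k : ℝ) ^ 2 →
      IsPair K o → (∀ y ∈ K, o - (y - o) ∈ K) → SmallFaces K o k F →
      (F.card : ℝ) ≤ (1 - 4 / d) * 2 ^ d → ∃ H, Separates H K o ∧ H.card < 2 ^ d) ∧
    -- (3) explicit bounds
    (∀ (d k : ℕ) (K : Set (Eu d)) (o : Eu d) (F : Finset (Eu d)), 1 ≤ k → k ≤ d → IsPair K o →
      SmallFaces K o k F →
      (∀ τ : ℝ, 0 < τ → τ < 1 → ∃ H, Separates H K o ∧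
        (H.card : ℝ) ≤ F.card + (1 + 4 * (d * (d + 1)) * Real.log (20 * d ^ 6 + 1) *
          (((2 - τ) / τ) ^ k / (1 - τ) ^ d))) ∧
      ((∀ y ∈ K, o - (y - o) ∈ K) → 2 * k < d → ∃ H, Separates H K o ∧
        (H.card : ℝ) ≤ F.card + (1 + 3 * (d * (d + 1) ^ 2) * Real.log (10 * d ^ 5 + 1) *
          d.choose k))) := by
  have hbody : ∀ {d : ℕ} {K : Set (Eu d)} {o : Eu d}, IsPair K o →
      Pool.Agent.TH84.HC.IsBody (polar K o) := by
    rintro d K o ⟨-, hKc, ho⟩
    exact ⟨H985.Sep.convex_polar K o, H985.Sep.isCompact_polar ho,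
      H985.Sep.interior_polar_nonempty hKc ho⟩
  have hfaces : ∀ {d k : ℕ} {K : Set (Eu d)} {o : Eu d} {F : Finset (Eu d)}, IsPair K o →
      SmallFaces K o k F → ∀ v ∈ Set.extremePoints ℝ (polar K o), v ∉ F →
        Pool.Agent.TH84.NC.NormalDim (polar K o) k v := by
    rintro d k K o F ⟨hK, hKc, ho⟩ hF v hv hvF
    exact Y368.normalDim_polar hK hKc ho k v (hF v hv hvF)
  have hsymm : ∀ {d : ℕ} {K : Set (Eu d)} {o : Eu d}, (∀ y ∈ K, o - (y - o) ∈ K) →
      ∀ v ∈ polar K o, -v ∈ polar K o := by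
    intro d K o hs v hv y hy
    have h := hv _ (hs y hy)
    rw [sub_sub_cancel_left, inner_neg_right] at h
    rw [inner_neg_left]
    exact h
  have hsep : ∀ {d : ℕ} {K : Set (Eu d)} {o : Eu d}, IsPair K o → ∀ T : Finset (Eu d),
      polar K o ⊆ ⋃ t ∈ T, (fun x => t + x) '' interior (polar K o) →
      ∃ H : Finset (Eu d × ℝ), H.card ≤ T.card ∧ Separates H K o := by
    rintro d K o ⟨-, -, ho⟩ T hT
    obtain ⟨H, h1, h2, h3⟩ := H985.Sep.separate ho T hT
    exact ⟨H, h1, h2, h3⟩
  obtain ⟨p1, p2, p3, -⟩ := MP_eba1ef_gt.SmallNormalCones.result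
  refine ⟨?_, ?_, ?_⟩
  · intro d k K o F hd hk hKo hF hFc
    obtain ⟨T, hT1, hT2⟩ := p1 d k _ hd hk (hbody hKo) F hFc (hfaces hKo hF)
    obtain ⟨H, h1, h2⟩ := hsep hKo T hT2
    exact ⟨H, h2, h1.trans_lt hT1⟩
  · intro d k K o F hd hk h8 hKo hs hF hFc
    obtain ⟨T, hT1, hT2⟩ := p2 d k _ hd hk h8 (hbody hKo) (hsymm hs) F hFc (hfaces hKo hF)
    obtain ⟨H, h1, h2⟩ := hsep hKo T hT2
    exact ⟨H, h2, h1.trans_lt hT1⟩
  · intro d k K o F hk hkd hKo hF
    obtain ⟨q1, q2⟩ := p3 d k _ F hk hkd (hbody hKo) (hfaces hKo hF)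
    constructor
    · intro τ h0 h1
      obtain ⟨T, hT1, hT2⟩ := q1 τ h0 h1
      obtain ⟨H, h1, h2⟩ := hsep hKo T hT2
      exact ⟨H, h2, le_trans (by exact_mod_cast h1) hT1⟩
    · intro hs h2k
      obtain ⟨T, hT1, hT2⟩ := q2 (hsymm hs) h2k
      obtain ⟨H, h1, h2⟩ := hsep hKo T hT2
      exact ⟨H, h2, le_trans (by exact_mod_cast h1) hT1⟩

end Pool.Agent.Results.MP_5e7226_co.LowDimensionalFaces
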