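import Mathlib
import Pool.Agent.H985.Sep
import Pool.Agent.Y512.Main13

set_option autoImplicit false

/-!
# MP_5e7226_co: thirteen hyperplanes suffice in `𝔼³`

For every convex body `K` in `𝔼³` and every interior point `o` of `K` there are at most 13 planes
such that every face of `K` is strictly separated from `o` by one of them: `s(K, o) ≤ 13`.

The polar body of `K` with respect to `o` is covered by 13 translates of its interior (theorem
`MP_eba1ef_gt.ThirteenInSpace` of helper512), and every translate gives a plane (`H985.Sep`). The
proof for coverings: among the triples of linear functionals of width at most one on a body take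
those of maximal determinant (the circumscribed parallelepipeds of least volume) and among them one
of maximal Euclidean length. After an affine map the body lies in the cube `[-1,1]³`, it contains a
chord of length two parallel to each axis, and for each axis at most one of the two ends of the
chord is a sharp contact. It is enough to illuminate the 1-skeleton of the cube and the at most
three sharp contacts; thirteen boxes with edge sums less than two, placed along a Hamiltonian path
of the cube graph, do it.
-/

namespace Pool.Agent.Results.MP_5e7226_co.ThirteenHyperplanes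

open scoped InnerProductSpace

/-- **Main theorem.** For every convex body `K` in `𝔼³` and every interior point `o` there is a set
`H` of at most 13 planes `{x | ⟪h.1, x⟫ = h.2}` such that every face of `K` (the set of the points of
`K` at which a functional `⟪u, ·⟫`, `u ≠ 0`, is maximal on `K`) is strictly separated from `o` by
one of them. -/
theorem result (K : Set (EuclideanSpace ℝ (Fin 3))) (hKc : IsCompact K)
    (o : EuclideanSpace ℝ (Fin 3)) (ho : o ∈ interior K) :
    ∃ H : Finset (EuclideanSpace ℝ (Fin 3) × ℝ), H.card ≤ 13 ∧ (∀ h ∈ H, h.1 ≠ 0) ∧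
      ∀ u x₀ : EuclideanSpace ℝ (Fin 3), u ≠ 0 → x₀ ∈ K → (∀ y ∈ K, ⟪u, y⟫_ℝ ≤ ⟪u, x₀⟫_ℝ) →
        ∃ h ∈ H, ⟪h.1, o⟫_ℝ < h.2 ∧ ∀ x ∈ K, ⟪u, x⟫_ℝ = ⟪u, x₀⟫_ℝ → h.2 < ⟪h.1, x⟫_ℝ := by
  obtain ⟨T, hT, hcov⟩ := Pool.Agent.Y512.covN13 (H985.Sep.polar K o) (H985.Sep.convex_polar K o)
    (H985.Sep.isCompact_polar ho) (H985.Sep.interior_polar_nonempty hKc ho)
  obtain ⟨H, h1, h2, h3⟩ := H985.Sep.separate ho T hcov
  exact ⟨H, h1.trans hT, h2, h3⟩

end Pool.Agent.Results.MP_5e7226_co.ThirteenHyperplanes
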